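import Pool.Agent.Helper74.CO.Goals

/-!
# Project CO (MP_c5396e_co): DOWNW

A permutation almost all of whose dots lie in a periodic Welch pattern has almost full order.
-/

set_option autoImplicit false

namespace Pool.Agent.Helper49.CO

open Finset Pool.Agent.Helper74.CO

theorem cost_pow {F : Type} [DecidableEq F] (hLEN : LEN) (X : Finset F) (T : Equiv.Perm F)
    (k : ℕ) : #(X.image (T ^ k : Equiv.Perm F) \ X) ≤ k * #(X.image T \ X) := by
  induction k with
  | zero => simp
  | succ k ih =>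
    rw [pow_succ]
    have h1 := (hLEN F X (T ^ k) T).1
    have h2 : (k + 1) * #(X.image T \ X) = k * #(X.image T \ X) + #(X.image T \ X) := by ring
    rw [h2]
    omega

theorem cost_zpow {F : Type} [DecidableEq F] (hLEN : LEN) (X : Finset F) (T : Equiv.Perm F)
    (k : ℤ) : #(X.image (T ^ k : Equiv.Perm F) \ X) ≤ k.natAbs * #(X.image T \ X) := by
  obtain ⟨n, rfl | rfl⟩ := k.eq_nat_or_neg
  · rw [zpow_natCast, Int.natAbs_natCast]
    exact cost_pow hLEN X T n
  · rw [zpow_neg, zpow_natCast, Int.natAbs_neg, Int.natAbs_natCast, (hLEN F X T (T ^ n)).2]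
    exact cost_pow hLEN X T n

/-- From the cost of the translation by `1` and of the multiplication by `g` to `Inv`. -/
theorem inv_of_cost {F : Type} [Field F] [DecidableEq F] (hLEN : LEN) (X : Finset F) (g : F)
    (hg : g ≠ 0) (a b E : ℕ) (h1 : #(X.image (· + 1) \ X) ≤ a) (h2 : #(X.image (g * ·) \ X) ≤ b)
    (hE1 : a ≤ E) (hE2 : 2 * b ≤ E) : Inv X g E := by
  intro k
  let u : Fˣ := Units.mk0 g hg
  let M : Equiv.Perm F := MulAction.toPermHom Fˣ F u
  let T : Equiv.Perm F := Equiv.addRight 1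
  have hM : ∀ (k : ℤ) x, (M ^ k) x = g ^ k * x := by
    intro k x
    have h3 : M ^ k = MulAction.toPermHom Fˣ F (u ^ k) := (map_zpow _ _ _).symm
    rw [h3]
    show (u ^ k) • x = g ^ k * x
    rw [Units.smul_def, Units.val_zpow_eq_zpow_val, smul_eq_mul]
    rfl
  have hMi : ∀ (k : ℤ) x, ((M ^ k)⁻¹) x = (g ^ k)⁻¹ * x := by
    intro k x
    rw [← zpow_neg, hM, zpow_neg]
  have e1 : (fun x : F => x + g ^ k) = ((M ^ k * (T * (M ^ k)⁻¹) : Equiv.Perm F) : F → F) := by
    funext x
    show x + g ^ k = (M ^ k) ((M ^ k)⁻¹ x + 1)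
    rw [hM, hMi]
    have h4 : g ^ k ≠ 0 := zpow_ne_zero k hg
    field_simp
  have e2 : (fun x : F => g * x) = (M : F → F) := by
    funext x
    have := hM 1 x
    rw [zpow_one, zpow_one] at this
    exact this.symm
  have e3 : (fun x : F => x + 1) = (T : F → F) := rfl
  rw [e1]
  rw [e2] at h2
  rw [e3] at h1
  have c1 := (hLEN F X (M ^ k) (T * (M ^ k)⁻¹)).1
  have c2 := (hLEN F X T ((M ^ k)⁻¹)).1
  have c3 := (hLEN F X T (M ^ k)).2
  have c4 := cost_zpow hLEN X M k
  have c5 : k.natAbs * #(X.image M \ X) ≤ k.natAbs * b := Nat.mul_le_mul_left _ h2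
  have c6 : k.natAbs * (2 * b) ≤ k.natAbs * E := Nat.mul_le_mul_left _ hE2
  have c7 : E * (1 + k.natAbs) = E + k.natAbs * E := by ring
  have c8 : k.natAbs * (2 * b) = 2 * (k.natAbs * b) := by ring
  rw [c7]
  omega

theorem t_DOWNW (hEXP : EXP) (hLEN : LEN) (hIND : IND) : Pool.Agent.Helper74.CO.DOWNW := by
  classical
  intro C
  obtain ⟨C₁, δ₀, hδ₀, hX⟩ := hEXP (4 * C + 3)
  refine ⟨C₁, max 3 (⌈2 / δ₀⌉₊), δ₀ / 2, by positivity, ?_⟩
  intro p _ g c hN hgen hc n f s t hn hn2 hfil
  have hp3 : 3 ≤ p := le_trans (le_max_left _ _) hN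
  have hpδ : 2 / δ₀ ≤ p := by
    have h1 : ((⌈2 / δ₀⌉₊ : ℕ) : ℝ) ≤ p := by exact_mod_cast le_trans (le_max_right _ _) hN
    exact le_trans (Nat.le_ceil _) h1
  have hcard : Fintype.card (ZMod p) = p := ZMod.card p
  obtain ⟨hg0, -, -, hgz⟩ := hIND (ZMod p) g hgen (by rw [hcard]; exact hp3)
  rw [hcard] at hgz
  -- the rows
  let r : Fin n → ZMod p := fun j => (((j : ℤ) + t : ℤ) : ZMod p)
  have hr : Function.Injective r := by
    intro i j hij
    have h1 : (((i : ℤ) + t : ℤ) : ZMod p) = (((j : ℤ) + t : ℤ) : ZMod p) := hij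
    rw [ZMod.intCast_eq_intCast_iff_dvd_sub] at h1
    have h2 : ((j : ℤ) + t) - ((i : ℤ) + t) = 0 := by
      refine Int.eq_zero_of_abs_lt_dvd h1 ?_
      rw [abs_lt]
      have hi := i.2
      have hj := j.2
      constructor <;> omega
    apply Fin.ext
    omega
  -- the columns
  let w : Fin n → ZMod p := fun i => c * g ^ ((i : ℤ) + s)
  have hw : Function.Injective w := by
    intro i j hij
    have h1 : c * g ^ ((i : ℤ) + s) = c * g ^ ((j : ℤ) + s) := hij
    have h2 := mul_left_cancel₀ hc h1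
    rw [hgz] at h2
    have h3 : ((i : ℤ) + s) - ((j : ℤ) + s) = 0 := by
      refine Int.eq_zero_of_abs_lt_dvd h2 ?_
      rw [abs_lt]
      have hi := i.2
      have hj := j.2
      constructor <;> omega
    apply Fin.ext
    omega
  let R : Finset (ZMod p) := univ.image r
  let G' : Finset (ZMod p) := univ.image w
  have cR : #R = n := by
    rw [card_image_of_injective _ hr, card_univ, Fintype.card_fin]
  have cG' : #G' = n := by
    rw [card_image_of_injective _ hw, card_univ, Fintype.card_fin]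
  let X : Finset (ZMod p) := univ \ R
  let G : Finset (ZMod p) := univ \ G'
  have cX : #X = p - n := by
    rw [card_sdiff_of_subset (subset_univ _), card_univ, hcard, cR]
  have cG : #G = p - n := by
    rw [card_sdiff_of_subset (subset_univ _), card_univ, hcard, cG']
  -- the exceptional columns
  have hC : #(G' \ R) ≤ C := by
    refine le_trans ?_ hfil
    have h1 : G' \ R ⊆ (univ.filter fun i => w i ∉ R).image w := by
      intro x hx
      rw [mem_sdiff, mem_image] at hx
      obtain ⟨⟨i, -, rfl⟩, hx2⟩ := hx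
      exact mem_image_of_mem _ (by simpa using hx2)
    have h2 : (univ.filter fun i => w i ∉ R).image
        (fun i : Fin n => ((i : ℤ) + s, ((f i : Fin n) : ℤ) + t)) ⊆
        (dots f s t).filter (· ∉ Wt p g c) := by
      intro P hP
      rw [mem_image] at hP
      obtain ⟨i, hi, rfl⟩ := hP
      rw [mem_filter]
      refine ⟨mem_image_of_mem _ (mem_univ i), ?_⟩
      intro hW
      rw [mem_filter] at hi
      apply hi.2
      have hW' : c * g ^ ((i : ℤ) + s) = ((((f i : Fin n) : ℤ) + t : ℤ) : ZMod p) := hW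
      show c * g ^ ((i : ℤ) + s) ∈ R
      rw [hW']
      exact mem_image_of_mem r (mem_univ (f i))
    have h3 : Function.Injective
        (fun i : Fin n => ((i : ℤ) + s, ((f i : Fin n) : ℤ) + t)) := by
      intro i j hij
      have h4 := congrArg Prod.fst hij
      simp only at h4
      apply Fin.ext
      omega
    calc #(G' \ R) ≤ #((univ.filter fun i => w i ∉ R).image w) := card_le_card h1
      _ ≤ #(univ.filter fun i => w i ∉ R) := card_image_le
      _ = #((univ.filter fun i => w i ∉ R).image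
        (fun i : Fin n => ((i : ℤ) + s, ((f i : Fin n) : ℤ) + t))) :=
          (card_image_of_injective _ h3).symm
      _ ≤ _ := card_le_card h2
  have hXG : #(X \ G) ≤ C := by
    refine le_trans (card_le_card ?_) hC
    intro x hx
    simp only [X, G, mem_sdiff, mem_univ, true_and, not_not] at hx ⊢
    exact ⟨hx.2, hx.1⟩
  have hGX : #(G \ X) ≤ C := by
    have h1 := card_sdiff_add_card_inter X G
    have h2 := card_sdiff_add_card_inter G X
    rw [inter_comm] at h2
    omega
  -- translation by one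
  have ht : #(X.image (· + 1) \ X) ≤ 1 := by
    refine le_trans (card_le_card (t := {((t : ℤ) : ZMod p)}) ?_) (card_singleton _).le
    intro x hx
    simp only [mem_sdiff, mem_image, X, mem_univ, true_and, not_not] at hx
    obtain ⟨⟨y, hy, rfl⟩, hx2⟩ := hx
    obtain ⟨j, -, hj⟩ := mem_image.1 hx2
    rw [mem_singleton]
    rcases Nat.eq_zero_or_pos (j : ℕ) with h0 | h0
    · rw [← hj]
      show (((j : ℤ) + t : ℤ) : ZMod p) = ((t : ℤ) : ZMod p)
      rw [show ((j : ℕ) : ℤ) = 0 by omega, zero_add]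
    · exfalso
      apply hy
      have hj2 : (j : ℕ) - 1 < n := by omega
      have h5 : y = r ⟨(j : ℕ) - 1, hj2⟩ := by
        have h6 : y = r j - 1 := by rw [hj]; ring
        rw [h6]
        show (((j : ℤ) + t : ℤ) : ZMod p) - 1 = (((((j : ℕ) - 1 : ℕ) : ℤ) + t : ℤ) : ZMod p)
        rw [Nat.cast_sub (by omega)]
        push_cast
        ring
      rw [h5]
      exact mem_image_of_mem r (mem_univ _)
  -- multiplication by g
  have hm : #(G.image (g * ·) \ G) ≤ 1 := by
    refine le_trans (card_le_card (t := {c * g ^ s}) ?_) (card_singleton _).le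
    intro x hx
    simp only [mem_sdiff, mem_image, G, mem_univ, true_and, not_not] at hx
    obtain ⟨⟨y, hy, rfl⟩, hx2⟩ := hx
    obtain ⟨j, -, hj⟩ := mem_image.1 hx2
    rw [mem_singleton]
    rcases Nat.eq_zero_or_pos (j : ℕ) with h0 | h0
    · rw [← hj]
      show c * g ^ ((j : ℤ) + s) = c * g ^ s
      rw [show ((j : ℕ) : ℤ) = 0 by omega, zero_add]
    · exfalso
      apply hy
      have hj2 : (j : ℕ) - 1 < n := by omega
      have h5 : y = w ⟨(j : ℕ) - 1, hj2⟩ := by
        apply mul_left_cancel₀ hg0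
        rw [← hj]
        show c * g ^ ((j : ℤ) + s) = g * (c * g ^ ((((j : ℕ) - 1 : ℕ) : ℤ) + s))
        rw [Nat.cast_sub (by omega)]
        have h7 : ((j : ℕ) : ℤ) + s = (((j : ℕ) : ℤ) - ((1 : ℕ) : ℤ) + s) + 1 := by
          push_cast
          ring
        rw [h7, zpow_add_one₀ hg0]
        ring
      rw [h5]
      exact mem_image_of_mem w (mem_univ _)
  have hmX : #(X.image (g * ·) \ X) ≤ 2 * C + 1 := by
    have h1 : X.image (g * ·) \ X ⊆ ((X \ G).image (g * ·) ∪ (G.image (g * ·) \ G)) ∪ (G \ X) := by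
      intro x hx
      rw [mem_sdiff, mem_image] at hx
      obtain ⟨⟨y, hy, rfl⟩, hx2⟩ := hx
      by_cases hyG : y ∈ G
      · by_cases hgy : g * y ∈ G
        · exact mem_union_right _ (mem_sdiff.2 ⟨hgy, hx2⟩)
        · exact mem_union_left _ (mem_union_right _
            (mem_sdiff.2 ⟨mem_image_of_mem _ hyG, hgy⟩))
      · exact mem_union_left _ (mem_union_left _
          (mem_image_of_mem _ (mem_sdiff.2 ⟨hy, hyG⟩)))
    have h2 := card_le_card h1
    have h3 := card_union_le ((X \ G).image (g * ·) ∪ (G.image (g * ·) \ G)) (G \ X)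
    have h4 := card_union_le ((X \ G).image (g * ·)) (G.image (g * ·) \ G)
    have h5 : #((X \ G).image (g * ·)) ≤ #(X \ G) := card_image_le
    omega
  have hinv : Inv X g (4 * C + 3) :=
    inv_of_cost hLEN X g hg0 1 (2 * C + 1) (4 * C + 3) ht hmX (by omega) (by omega)
  have hsize : (#X : ℝ) ≤ δ₀ * Fintype.card (ZMod p) := by
    rw [cX, hcard, Nat.cast_sub (by omega)]
    have h1 : ((p - 1 : ℕ) : ℝ) = (p : ℝ) - 1 := by
      rw [Nat.cast_sub (by omega)]
      norm_num
    rw [h1] at hn2
    rw [div_le_iff₀ hδ₀] at hpδ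
    nlinarith
  have hfin := hX (ZMod p) g X hgen hinv hsize
  rw [cX] at hfin
  omega

end Pool.Agent.Helper49.CO
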